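import Pool.Agent.NH83.VN.Main

/-!
Volumetric weak `ε`-nets of size `O(ε ^ (-α))` for every `α > d`; hence `1 ≤ α_d ≤ d < d + 1`.
-/

set_option autoImplicit false

open Finset MeasureTheory

namespace Pool.Agent.Results.MP_a20b56_co.VolNet

/-- `S` is a weak `ε`-net of volume `v` for the finite family `F` of sets in `ℝ^d`: all members of
`S` are (measurable, and) of volume `v`, and the convex hull of the union of every subfamily `G`
with `|G| ≥ ε |F|` contains a member of `S`. -/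
def IsWeakNet {d : ℕ} (F : Finset (Set (Fin d → ℝ))) (ε v : ℝ) (S : Finset (Set (Fin d → ℝ))) :
    Prop :=
  (∀ s ∈ S, MeasurableSet s ∧ volume s = ENNReal.ofReal v) ∧
    ∀ G ⊆ F, ε * F.card ≤ G.card → ∃ s ∈ S, s ⊆ convexHull ℝ (⋃ A ∈ G, A)

/-- `α > 0` is admissible in dimension `d`: there are `v > 0` and `C` such that for all `ε ∈ (0, 1]`
every nonempty finite family of convex sets of volume one has a weak `ε`-net of volume `v` with at
most `C ε ^ (-α)` members. -/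
def Admissible (d : ℕ) (α : ℝ) : Prop :=
  0 < α ∧ ∃ v C : ℝ, 0 < v ∧ ∀ ε : ℝ, 0 < ε → ε ≤ 1 →
    ∀ F : Finset (Set (Fin d → ℝ)), F.Nonempty → (∀ A ∈ F, Convex ℝ A ∧ volume A = 1) →
      ∃ S : Finset (Set (Fin d → ℝ)), (S.card : ℝ) ≤ C * ε ^ (-α) ∧ IsWeakNet F ε v S

/-- The same for families in which a set may occur several times. -/
def AdmissibleRep (d : ℕ) (α : ℝ) : Prop :=
  0 < α ∧ ∃ v C : ℝ, 0 < v ∧ ∀ ε : ℝ, 0 < ε → ε ≤ 1 →
    ∀ (ι : Type) [Fintype ι] [Nonempty ι] (F : ι → Set (Fin d → ℝ)),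
      (∀ i, Convex ℝ (F i) ∧ volume (F i) = 1) →
      ∃ S : Finset (Set (Fin d → ℝ)), (S.card : ℝ) ≤ C * ε ^ (-α) ∧
        (∀ s ∈ S, MeasurableSet s ∧ volume s = ENNReal.ofReal v) ∧
        ∀ G : Finset ι, ε * Fintype.card ι ≤ G.card → ∃ s ∈ S, s ⊆ convexHull ℝ (⋃ i ∈ G, F i)

/-- The infimum of the admissible exponents (`⊤` if there are none). -/
noncomputable def alpha (d : ℕ) : EReal := sInf ((fun a : ℝ => (a : EReal)) '' {α | Admissible d α})

theorem admissible_of_rep {d : ℕ} {α : ℝ} (h : AdmissibleRep d α) : Admissible d α := by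
  classical
  obtain ⟨h0, v, C, hv, H⟩ := h
  refine ⟨h0, v, C, hv, fun ε hε hε1 F hF hA => ?_⟩
  have : Nonempty F := hF.to_subtype
  obtain ⟨S, hS1, hS2, hS3⟩ := H ε hε hε1 F (fun A => (A : Set (Fin d → ℝ))) (fun A => hA A A.2)
  refine ⟨S, hS1, hS2, fun G hG hc => ?_⟩
  obtain ⟨s, hs, hs'⟩ := hS3 (G.subtype (· ∈ F)) (by
    rw [Fintype.card_coe, card_subtype, filter_true_of_mem fun A hA => hG hA]
    exact hc)
  refine ⟨s, hs, hs'.trans (convexHull_mono ?_)⟩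
  intro x hx
  rw [Set.mem_iUnion₂] at hx ⊢
  obtain ⟨A, hA, hx⟩ := hx
  exact ⟨A, mem_subtype.1 hA, hx⟩

/-- For every `d ≥ 1`, every `α > d` is admissible (also for families with repetitions), so
`1 ≤ α_d ≤ d` and `α_d < d + 1`; and `α_1 = 1`. -/
theorem result : ∀ d : ℕ, 1 ≤ d →
    (∀ α : ℝ, (d : ℝ) < α → AdmissibleRep d α ∧ Admissible d α) ∧
      1 ≤ alpha d ∧ alpha d ≤ (d : ℝ) ∧ alpha d < ((d + 1 : ℕ) : ℝ) ∧ (d = 1 → alpha d = 1) := by
  intro d hd
  have hd0 : (0 : ℝ) < d := by exact_mod_cast hd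
  have h1 : ∀ α : ℝ, (d : ℝ) < α → AdmissibleRep d α := by
    intro α hα
    obtain ⟨v, C, hv, -, h⟩ := NH83.VN.main hd hα
    exact ⟨by linarith, v, C, hv, h⟩
  have h2 : alpha d ≤ (d : ℝ) := by
    apply EReal.le_of_forall_lt_iff_le.1
    intro α hα
    have hα' : (d : ℝ) < α := by exact_mod_cast hα
    exact sInf_le ⟨α, admissible_of_rep (h1 α hα'), rfl⟩
  have h3 : (1 : EReal) ≤ alpha d := by
    apply le_sInf
    rintro _ ⟨α, ⟨-, v, C, hv, h⟩, rfl⟩
    have : (1 : ℝ) ≤ α := NH83.VN.lower hd hv h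
    dsimp only
    exact_mod_cast this
  refine ⟨fun α hα => ⟨h1 α hα, admissible_of_rep (h1 α hα)⟩, h3, h2, lt_of_le_of_lt h2 ?_, ?_⟩
  · rw [EReal.coe_lt_coe_iff]
    push_cast
    linarith
  · intro hd1
    refine le_antisymm ?_ h3
    rw [hd1] at h2 ⊢
    rw [Nat.cast_one] at h2
    exact_mod_cast h2

end Pool.Agent.Results.MP_a20b56_co.VolNet
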